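import Mathlib

set_option autoImplicit false

namespace Pool.Agent.Results.MP_d11917_an.Strip

/-- one step of the ant with rule word `w` (`w k = true` is the letter R, `false` is L) -/
def step {m : ℕ} [NeZero m] (w : Fin m → Bool) (C : (ℤ × ℤ → Fin m) × (ℤ × ℤ) × (ℤ × ℤ)) :
    (ℤ × ℤ → Fin m) × (ℤ × ℤ) × (ℤ × ℤ) :=
  (Function.update C.1 C.2.1 (C.1 C.2.1 + 1),
    C.2.1 + (if w (C.1 C.2.1) then (C.2.2.2, -C.2.2.1) else (-C.2.2.2, C.2.2.1)),
    if w (C.1 C.2.1) then (C.2.2.2, -C.2.2.1) else (-C.2.2.2, C.2.2.1))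

/-- cells visited infinitely often -/
def Rec {m : ℕ} [NeZero m] (w : Fin m → Bool) (C : (ℤ × ℤ → Fin m) × (ℤ × ℤ) × (ℤ × ℤ)) :
    Set (ℤ × ℤ) :=
  {x | {t : ℕ | ((step w)^[t] C).2.1 = x}.Infinite}

abbrev Cf := (ℤ × ℤ → Fin 2) × (ℤ × ℤ) × (ℤ × ℤ)

def W : Fin 2 → Bool := ![false, true]

lemma loc (s : ℤ) (S : ℤ × ℤ → Prop) (C D : Cf) (hp : C.2.1 = D.2.1 + (s, 0)) (hq : C.2.2 = D.2.2)
    (hS : ∀ z, S z → C.1 (z + (s, 0)) = D.1 z) (n : ℕ)
    (hin : ∀ t < n, S ((step W)^[t] D).2.1) :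
    ((step W)^[n] C).2.1 = ((step W)^[n] D).2.1 + (s, 0) ∧
    ((step W)^[n] C).2.2 = ((step W)^[n] D).2.2 ∧
    (∀ z, S z → ((step W)^[n] C).1 (z + (s, 0)) = ((step W)^[n] D).1 z) ∧
    (∀ z, ¬ S z → ((step W)^[n] C).1 (z + (s, 0)) = C.1 (z + (s, 0))) := by
  induction n with
  | zero => exact ⟨hp, hq, hS, fun _ _ => rfl⟩
  | succ n ih =>
    obtain ⟨h1, h2, h3, h4⟩ := ih (fun t ht => hin t (by omega))
    have h5 := hin n (by omega)
    rw [Function.iterate_succ_apply', Function.iterate_succ_apply']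
    generalize (step W)^[n] C = C' at *
    generalize (step W)^[n] D = D' at *
    have h6 : C'.1 C'.2.1 = D'.1 D'.2.1 := by rw [h1]; exact h3 _ h5
    refine ⟨?_, ?_, fun z hz => ?_, fun z hz => ?_⟩
    · simp only [step, h6, h2]
      rw [h1, add_right_comm]
    · simp only [step, h6, h2]
    · simp only [step, h6]
      by_cases e : z = D'.2.1
      · rw [e, ← h1, Function.update_self, Function.update_self]
      · rw [Function.update_of_ne e, Function.update_of_ne (by rw [h1]; simpa using e), h3 z hz]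
    · simp only [step]
      rw [Function.update_of_ne, h4 z hz]
      rw [h1]
      intro e
      exact hz (by rw [add_right_cancel e]; exact h5)

def rp (i y : ℤ) : Fin 2 :=
  if i = 1 then (if y = 3 ∨ y = 1 then 1 else 0)
  else if i = 2 then (if y = 2 ∨ y = 1 then 1 else 0)
  else if i = 3 then (if y = 4 ∨ y = 0 then 1 else 0)
  else if i % 2 = 0 then (if y = 3 ∨ y = 0 then 1 else 0) else (if y = 3 then 0 else 1)

lemma rp_per (i y : ℤ) (h : 4 ≤ i) : rp (i + 2) y = rp i y := by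
  unfold rp
  rw [if_neg (show ¬ i + 2 = 1 by omega), if_neg (show ¬ i + 2 = 2 by omega),
    if_neg (show ¬ i + 2 = 3 by omega), if_neg (show ¬ i = 1 by omega),
    if_neg (show ¬ i = 2 by omega), if_neg (show ¬ i = 3 by omega),
    show (i + 2) % 2 = i % 2 by omega]

def St (l x r d : ℤ) (C : Cf) : Prop :=
  C.2.1 = (x, 1) ∧ C.2.2 = (d, 0) ∧
  (∀ i y, 1 ≤ i → 0 ≤ y → y ≤ 4 → C.1 (l - i, y) = rp i y + 1) ∧
  (∀ i y, 1 ≤ i → 0 ≤ y → y ≤ 4 → C.1 (r + i, y) = rp i y) ∧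
  (∀ i, l ≤ i → 2 * i + d < 2 * x + 1 → C.1 (i, 2) = 0 ∧ C.1 (i, 1) = 1) ∧
  (∀ i, 2 * x + 1 ≤ 2 * i + d → i ≤ r → C.1 (i, 2) = 1 ∧ C.1 (i, 1) = 0)

def Go (C : Cf) (Q : Cf → Prop) : Prop :=
  ∃ n, Q ((step W)^[n] C) ∧ ∀ t < n, ((step W)^[t] C).2.1.2 ≤ 4

lemma Go.trans {C : Cf} {Q Q' : Cf → Prop} (h : Go C Q) (h' : ∀ D, Q D → Go D Q') : Go C Q' := by
  obtain ⟨n, h1, h2⟩ := h
  obtain ⟨k, h3, h4⟩ := h' _ h1
  refine ⟨k + n, by rwa [Function.iterate_add_apply], fun t ht => ?_⟩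
  by_cases e : t < n
  · exact h2 t e
  · obtain ⟨u, rfl⟩ : ∃ u, t = u + n := ⟨t - n, by omega⟩
    rw [Function.iterate_add_apply]
    exact h4 u (by omega)

lemma go_of (s : ℤ) (S : ℤ × ℤ → Prop) (hS4 : ∀ z, S z → z.2 ≤ 4) (C D : Cf)
    (hp : C.2.1 = D.2.1 + (s, 0)) (hq : C.2.2 = D.2.2)
    (hS : ∀ z, S z → C.1 (z + (s, 0)) = D.1 z) (n : ℕ)
    (hin : ∀ t < n, S ((step W)^[t] D).2.1) (Q : Cf → Prop)
    (hQ : ∀ C' : Cf, C'.2.1 = ((step W)^[n] D).2.1 + (s, 0) → C'.2.2 = ((step W)^[n] D).2.2 →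
      (∀ i y, S (i, y) → C'.1 (s + i, y) = ((step W)^[n] D).1 (i, y)) →
      (∀ i y, ¬ S (i - s, y) → C'.1 (i, y) = C.1 (i, y)) → Q C') : Go C Q := by
  obtain ⟨h1, h2, h3, h4⟩ := loc s S C D hp hq hS n hin
  refine ⟨n, hQ _ h1 h2 (fun i y h => ?_) (fun i y h => ?_), fun t ht => ?_⟩
  · simpa [add_comm] using h3 _ h
  · simpa using h4 _ h
  · rw [(loc s S C D hp hq hS t (fun u hu => hin u (by omega))).1]
    simpa using hS4 _ (hin t ht)

lemma moveR {l x r : ℤ} {C : Cf} (h : St l x r 1 C) (hl : l ≤ x) (hr : x + 2 ≤ r) :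
    Go C (St l (x + 2) r 1) := by
  obtain ⟨h1, h2, h3, h4, h5, h6⟩ := h
  refine go_of x (fun z => (z.1 = 0 ∨ z.1 = 1) ∧ (z.2 = 1 ∨ z.2 = 2)) (fun z hz => by omega) C
    (fun z => if z.2 = 2 then 1 else 0, (0, 1), (1, 0)) (by simp [h1]) h2 ?_ 4 (by decide +kernel)
    _ (fun C' e1 e2 e3 e4 => ⟨?_, e2, fun i y a b c => ?_, fun i y a b c => ?_, fun i a b => ?_,
      fun i a b => ?_⟩)
  · rintro ⟨i, y⟩ ⟨a | a, rfl | rfl⟩ <;> simp only at a <;> subst_vars <;>
      simp [h6 x (by omega) (by omega), add_comm, h6 (x + 1) (by omega) (by omega)]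
  · rw [e1, add_comm]; rfl
  · rw [e4 _ _ (by simp only; omega), h3 i y a b c]
  · rw [e4 _ _ (by simp only; omega), h4 i y a b c]
  · by_cases e : i < x
    · rw [e4 _ _ (by simp only; omega), e4 _ _ (by simp only; omega)]
      exact h5 i a (by omega)
    · obtain rfl | rfl : i = x + 0 ∨ i = x + 1 := by omega
      all_goals
        rw [e3 _ _ (by decide), e3 _ _ (by decide)]
        decide +kernel
  · rw [e4 _ _ (by simp only; omega), e4 _ _ (by simp only; omega)]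
    exact h6 i (by omega) b

lemma moveL {l x r : ℤ} {C : Cf} (h : St l x r (-1) C) (hl : l ≤ x - 2) (hr : x ≤ r) :
    Go C (St l (x - 2) r (-1)) := by
  obtain ⟨h1, h2, h3, h4, h5, h6⟩ := h
  refine go_of x (fun z => (z.1 = 0 ∨ z.1 = -1) ∧ (z.2 = 1 ∨ z.2 = 2)) (fun z hz => by omega) C
    (fun z => if z.2 = 2 then 0 else 1, (0, 1), (-1, 0)) (by simp [h1]) h2 ?_ 4 (by decide +kernel)
    _ (fun C' e1 e2 e3 e4 => ⟨?_, e2, fun i y a b c => ?_, fun i y a b c => ?_, fun i a b => ?_,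
      fun i a b => ?_⟩)
  · rintro ⟨i, y⟩ ⟨a | a, rfl | rfl⟩ <;> simp only at a <;> subst_vars <;>
      simp [h5 x (by omega) (by omega), add_comm, h5 (x + -1) (by omega) (by omega)]
  · rw [e1, add_comm]; rfl
  · rw [e4 _ _ (by simp only; omega), h3 i y a b c]
  · rw [e4 _ _ (by simp only; omega), h4 i y a b c]
  · rw [e4 _ _ (by simp only; omega), e4 _ _ (by simp only; omega)]
    exact h5 i a (by omega)
  · by_cases e : x < i
    · rw [e4 _ _ (by simp only; omega), e4 _ _ (by simp only; omega)]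
      exact h6 i (by omega) b
    · obtain rfl | rfl : i = x + 0 ∨ i = x + -1 := by omega
      all_goals
        rw [e3 _ _ (by decide), e3 _ _ (by decide)]
        decide +kernel

lemma turnR {l r : ℤ} {C : Cf} (h : St l r r 1 C) (hl : l ≤ r) :
    Go C (St l (r + 2) (r + 2) (-1)) := by
  obtain ⟨h1, h2, h3, h4, h5, h6⟩ := h
  refine go_of r (fun z => (z.1 = 0 ∧ (z.2 = 1 ∨ z.2 = 2)) ∨
      (1 ≤ z.1 ∧ z.1 ≤ 5 ∧ 0 ≤ z.2 ∧ z.2 ≤ 4)) (fun z hz => by omega) C
    (fun z => if z.1 = 0 then (if z.2 = 2 then 1 else 0) else rp z.1 z.2, (0, 1), (1, 0))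
    (by simp [h1]) h2 ?_ 24 (by decide +kernel)
    _ (fun C' e1 e2 e3 e4 => ⟨?_, e2.trans (by decide +kernel), fun i y a b c => ?_,
      fun i y a b c => ?_, fun i a b => ?_, fun i a b => by omega⟩)
  · rintro ⟨i, y⟩ (⟨a, rfl | rfl⟩ | ⟨a, b, c, d⟩)
    · subst a; simp [h6 r (by omega) (by omega)]
    · subst a; simp [h6 r (by omega) (by omega)]
    · simp only at a b c d
      simp [add_comm i, h4 i y a c d, show i ≠ 0 by omega]
  · rw [e1, add_comm, show ((step W)^[24] ((fun z => if z.1 = 0 then (if z.2 = 2 then 1 else 0)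
      else rp z.1 z.2, (0, 1), (1, 0)) : Cf)).2.1 = (2, 1) by decide +kernel]; rfl
  · rw [e4 _ _ (by simp only; omega), h3 i y a b c]
  · by_cases e : 4 ≤ i
    · rw [e4 _ _ (by simp only; omega), add_assoc, h4 _ y (by omega) b c, add_comm, rp_per i y e]
    · rw [add_assoc, e3 _ _ (by simp only; omega)]
      have : i ≤ 3 := by omega
      interval_cases i <;> interval_cases y <;> decide +kernel
  · by_cases e : i < r
    · rw [e4 _ _ (by simp only; omega), e4 _ _ (by simp only; omega)]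
      exact h5 i a (by omega)
    · obtain rfl | rfl | rfl : i = r + 0 ∨ i = r + 1 ∨ i = r + 2 := by omega
      all_goals
        rw [e3 _ _ (by decide), e3 _ _ (by decide)]
        decide +kernel

lemma turnL {l r : ℤ} {C : Cf} (h : St l l r (-1) C) (hl : l ≤ r) :
    Go C (St (l - 2) (l - 2) r 1) := by
  obtain ⟨h1, h2, h3, h4, h5, h6⟩ := h
  refine go_of l (fun z => (z.1 = 0 ∧ (z.2 = 1 ∨ z.2 = 2)) ∨
      (z.1 ≤ -1 ∧ -5 ≤ z.1 ∧ 0 ≤ z.2 ∧ z.2 ≤ 4)) (fun z hz => by omega) C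
    (fun z => if z.1 = 0 then (if z.2 = 2 then 0 else 1) else rp (-z.1) z.2 + 1, (0, 1), (-1, 0))
    (by simp [h1]) h2 ?_ 24 (by decide +kernel)
    _ (fun C' e1 e2 e3 e4 => ⟨?_, e2.trans (by decide +kernel), fun i y a b c => ?_,
      fun i y a b c => ?_, fun i a b => by omega, fun i a b => ?_⟩)
  · rintro ⟨i, y⟩ (⟨a, rfl | rfl⟩ | ⟨a, b, c, d⟩)
    · subst a; simp [h5 l (by omega) (by omega)]
    · subst a; simp [h5 l (by omega) (by omega)]
    · simp only at a b c d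
      have := h3 (-i) y (by omega) c d
      rw [sub_neg_eq_add] at this
      simp [add_comm i, this, show i ≠ 0 by omega]
  · rw [e1, add_comm, show ((step W)^[24] ((fun z => if z.1 = 0 then (if z.2 = 2 then 0 else 1)
      else rp (-z.1) z.2 + 1, (0, 1), (-1, 0)) : Cf)).2.1 = (-2, 1) by decide +kernel]; rfl
  · by_cases e : 4 ≤ i
    · rw [e4 _ _ (by simp only; omega), sub_sub, h3 _ y (by omega) b c, add_comm 2, rp_per i y e]
    · rw [show l - 2 - i = l + (-2 - i) by ring, e3 _ _ (by simp only; omega)]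
      have : i ≤ 3 := by omega
      interval_cases i <;> interval_cases y <;> decide +kernel
  · rw [e4 _ _ (by simp only; omega), h4 i y a b c]
  · by_cases e : l < i
    · rw [e4 _ _ (by simp only; omega), e4 _ _ (by simp only; omega)]
      exact h6 i (by omega) b
    · obtain rfl | rfl | rfl : i = l + 0 ∨ i = l + -1 ∨ i = l + -2 := by omega
      all_goals
        rw [e3 _ _ (by decide), e3 _ _ (by decide)]
        decide +kernel

lemma runR {l r : ℤ} (k : ℕ) : ∀ (x : ℤ) (C : Cf), St l x r 1 C → l ≤ x → x + 2 * k ≤ r →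
    Go C (St l (x + 2 * k) r 1) := by
  induction k with
  | zero => intro x C h _ _; exact ⟨0, by simpa using h, by simp⟩
  | succ k ih =>
    intro x C h a b
    push_cast at b ⊢
    refine (moveR h a (by omega)).trans (fun D hD => ?_)
    have := ih (x + 2) D hD (by omega) (by omega)
    rwa [show x + 2 + 2 * (k : ℤ) = x + 2 * (k + 1) by ring] at this

lemma runL {l r : ℤ} (k : ℕ) : ∀ (x : ℤ) (C : Cf), St l x r (-1) C → l ≤ x - 2 * k → x ≤ r →
    Go C (St l (x - 2 * k) r (-1)) := by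
  induction k with
  | zero => intro x C h _ _; exact ⟨0, by simpa using h, by simp⟩
  | succ k ih =>
    intro x C h a b
    push_cast at a ⊢
    refine (moveL h (by omega) b).trans (fun D hD => ?_)
    have := ih (x - 2) D hD (by omega) (by omega)
    rwa [show x - 2 - 2 * (k : ℤ) = x - 2 * (k + 1) by ring] at this

lemma cyc (k : ℕ) (C : Cf) (h : St (-(2 * k)) 0 (2 * k) 1 C) :
    Go C (St (-(2 * (k + 1 : ℕ))) 0 (2 * (k + 1 : ℕ)) 1) := by
  refine (runR k 0 C h (by omega) (by omega)).trans (fun D hD => ?_)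
  rw [zero_add] at hD
  refine (turnR hD (by omega)).trans (fun D hD => ?_)
  refine (runL (2 * k + 1) _ D hD (by omega) (by omega)).trans (fun D hD => ?_)
  rw [show 2 * (k : ℤ) + 2 - 2 * ((2 * k + 1 : ℕ) : ℤ) = -(2 * k) by push_cast; ring] at hD
  refine (turnL hD (by omega)).trans (fun D hD => ?_)
  have := runR (k + 1) _ D hD le_rfl (by omega)
  rw [show -(2 * (k : ℤ)) - 2 + 2 * ((k + 1 : ℕ) : ℤ) = 0 by push_cast; ring] at this
  rwa [show -(2 * ((k + 1 : ℕ) : ℤ)) = -(2 * k) - 2 by push_cast; ring,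
    show 2 * ((k + 1 : ℕ) : ℤ) = 2 * k + 2 by push_cast; ring]

theorem result : ∃ (c : ℤ × ℤ → Fin 2) (p q : ℤ × ℤ),
    q ∈ ({(0, 1), (1, 0), (0, -1), (-1, 0)} : Set (ℤ × ℤ)) ∧
    (Rec ![false, true] (c, p, q)).Nonempty ∧ Rec ![false, true] (c, p, q) ≠ Set.univ := by
  let c : ℤ × ℤ → Fin 2 := fun z => if z.1 = 0 then (if z.2 = 2 then 1 else 0)
    else if 0 < z.1 then rp z.1 z.2 else rp (-z.1) z.2 + 1
  have h0 : St (-(2 * (0 : ℕ))) 0 (2 * (0 : ℕ)) 1 (c, (0, 1), (1, 0)) := by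
    refine ⟨rfl, rfl, fun i y a _ _ => ?_, fun i y a _ _ => ?_, fun i a b => by omega,
      fun i a b => ?_⟩
    · simp [c, show i ≠ 0 by omega, show ¬ i < 0 by omega]
    · simp [c, show i ≠ 0 by omega, show 0 < i by omega]
    · obtain rfl : i = 0 := by omega
      simp [c]
  have key : ∀ k : ℕ, ∃ n, k ≤ n ∧ St (-(2 * k)) 0 (2 * k) 1 ((step W)^[n] (c, (0, 1), (1, 0))) ∧
      ∀ t < n, ((step W)^[t] (c, (0, 1), (1, 0))).2.1.2 ≤ 4 := by
    intro k
    induction k with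
    | zero => exact ⟨0, le_rfl, h0, by simp⟩
    | succ k ih =>
      obtain ⟨n, a, b, d⟩ := ih
      obtain ⟨j, e, f⟩ := cyc k _ b
      have hj : j ≠ 0 := by
        rintro rfl
        have x1 := b.2.2.2.1 1 1 le_rfl (by omega) (by omega)
        have x2 := (e.2.2.2.2.2 (2 * k + 1) (by omega) (by omega)).2
        simp only [Function.iterate_zero, id] at x2
        rw [x2] at x1
        exact absurd x1 (by decide)
      refine ⟨j + n, by omega, by rwa [Function.iterate_add_apply], fun t ht => ?_⟩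
      by_cases g : t < n
      · exact d t g
      · obtain ⟨u, rfl⟩ : ∃ u, t = u + n := ⟨t - n, by omega⟩
        rw [Function.iterate_add_apply]
        exact f u (by omega)
  refine ⟨c, (0, 1), (1, 0), by simp, ⟨(0, 1), ?_⟩, fun h => ?_⟩
  · refine Set.infinite_of_forall_exists_gt (fun k => ?_)
    obtain ⟨n, a, b, -⟩ := key (k + 1)
    exact ⟨n, b.1, by omega⟩
  · have : (0, 5) ∈ Rec ![false, true] (c, (0, 1), (1, 0)) := h ▸ Set.mem_univ _
    obtain ⟨t, ht⟩ := Set.Infinite.nonempty this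
    obtain ⟨n, a, -, b⟩ := key (t + 1)
    have h5 := b t (by omega)
    have h6 : ((step W)^[t] (c, (0, 1), (1, 0))).2.1 = (0, 5) := ht
    rw [h6] at h5
    simp at h5

end Pool.Agent.Results.MP_d11917_an.Strip
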